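import Pool.Agent.W988.LD.Sharp

/-!
# No polynomial of degree `c log² n` refutes `q`-colourability of `G(n, 1/2)` for `q ≥ n ^ (1/2 + ε)`

The answer to the question is yes.  The two inputs are the file `Pool.Agent.W988.LD.Sharp` of the starting
library (a planted distribution on the `k`-colourable graphs which is hard to distinguish from `G(n, 1/2)` for
polynomials of low degree in the 0/1 indicators of the edges) and the translation to the setting of the problem.
-/

set_option autoImplicit false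

open Finset Filter MvPolynomial

namespace Pool.Agent.Results.MP_537ba7_lc.NoLowDegreeRefutation

/-- the unordered pairs `{u, v}`, `u ≠ v`, of elements of `{0, …, n - 1}` -/
abbrev Pair (n : ℕ) : Type := {e : Sym2 (Fin n) // ¬ e.IsDiag}

/-- the sign `+ 1` of an edge (`true`), `- 1` of a non-edge (`false`) -/
def sign (b : Bool) : ℝ := if b then 1 else -1

/-- the graph given by `x : Pair n → Bool`: the pair `e` is an edge if and only if `x e = true` -/
def graph {n : ℕ} (x : Pair n → Bool) : SimpleGraph (Fin n) where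
  Adj u v := ∃ h : ¬ (s(u, v) : Sym2 (Fin n)).IsDiag, x ⟨s(u, v), h⟩ = true
  symm := ⟨by
    rintro u v ⟨h, hx⟩
    have he : (s(v, u) : Sym2 (Fin n)) = s(u, v) := Sym2.eq_swap
    refine ⟨by rw [he]; exact h, ?_⟩
    rw [← hx]
    congr 1
    exact Subtype.ext he⟩
  loopless := ⟨by
    rintro u ⟨h, -⟩
    exact h (Sym2.mk_isDiag_iff.2 rfl)⟩

/-- the value of the polynomial `f` at the vector of the signs of the graph `x` -/
noncomputable def val {n : ℕ} (f : MvPolynomial (Pair n) ℝ) (x : Pair n → Bool) : ℝ :=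
  MvPolynomial.eval (fun e => sign (x e)) f

/-- the expectation of `F` for `G(n, 1/2)`, i.e. the average over all the graphs -/
noncomputable def mean {n : ℕ} (F : (Pair n → Bool) → ℝ) : ℝ :=
  (∑ x, F x) / (Fintype.card (Pair n → Bool) : ℝ)

/-- The sequence `f` of polynomials weakly separates `G(n, 1/2)` and the `q n`-colourable graphs. The conditions
are only imposed for large `n`. -/
def WeaklySeparates (q : ℕ → ℕ) (f : ∀ n : ℕ, MvPolynomial (Pair n) ℝ) : Prop :=
  (∀ᶠ n in atTop, ∀ x : Pair n → Bool, (graph x).Colorable (q n) → 1 ≤ val (f n) x) ∧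
  (∀ᶠ n in atTop, mean (val (f n)) = 0) ∧
  ∃ C : ℝ, ∀ᶠ n in atTop, mean (fun x => val (f n) x ^ 2) ≤ C

open Classical in
/-- graphs and their indicator functions -/
noncomputable def gEquiv (n : ℕ) : SimpleGraph (Fin n) ≃ (Pair n → Bool) where
  toFun G := fun e => decide (e.1 ∈ G.edgeSet)
  invFun x := graph x
  left_inv G := by
    ext u v
    constructor
    · rintro ⟨h, hx⟩
      simpa using hx
    · intro h
      refine ⟨?_, ?_⟩
      · rw [Sym2.mk_isDiag_iff]
        exact h.ne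
      · simpa using h
  right_inv x := by
    funext e
    obtain ⟨e, he⟩ := e
    induction e using Sym2.ind with
    | _ u v =>
      rw [Bool.eq_iff_iff]
      simp only [decide_eq_true_eq, SimpleGraph.mem_edgeSet]
      constructor
      · rintro ⟨h, hx⟩
        exact hx
      · intro h
        exact ⟨he, h⟩

/-- the substitution of the signs by indicators -/
noncomputable def toInd {n : ℕ} (f : MvPolynomial (Pair n) ℝ) : MvPolynomial (Sym2 (Fin n)) ℝ :=
  aeval (fun e : Pair n => (2 * X e.1 - 1 : MvPolynomial (Sym2 (Fin n)) ℝ)) f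

lemma totalDegree_aeval_le {σ τ : Type} (g : σ → MvPolynomial τ ℝ) (hg : ∀ i, (g i).totalDegree ≤ 1)
    (f : MvPolynomial σ ℝ) : (aeval g f).totalDegree ≤ f.totalDegree := by
  classical
  have h1 : aeval g f = ∑ m ∈ f.support, C (coeff m f) * ∏ i ∈ m.support, g i ^ m i := by
    conv_lhs => rw [f.as_sum]
    rw [map_sum]
    refine Finset.sum_congr rfl fun m _ => ?_
    rw [aeval_monomial]
    rfl
  rw [h1]
  refine (totalDegree_finsetSum _ _).trans (Finset.sup_le fun m hm => ?_)
  refine (totalDegree_mul _ _).trans ?_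
  rw [totalDegree_C, zero_add]
  refine (totalDegree_finsetProd _ _).trans ?_
  refine le_trans ?_ (le_totalDegree hm)
  refine Finset.sum_le_sum fun i _ => ?_
  refine (totalDegree_pow _ _).trans ?_
  calc m i * (g i).totalDegree ≤ m i * 1 := Nat.mul_le_mul_left _ (hg i)
    _ = m i := mul_one _

lemma toInd_degree {n : ℕ} (f : MvPolynomial (Pair n) ℝ) : (toInd f).totalDegree ≤ f.totalDegree := by
  refine totalDegree_aeval_le _ (fun e => ?_) f
  refine (totalDegree_sub _ _).trans ?_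
  have h1 : ((2 : MvPolynomial (Sym2 (Fin n)) ℝ) * X e.1).totalDegree ≤ 1 := by
    refine (totalDegree_mul _ _).trans ?_
    have h2 : (2 : MvPolynomial (Sym2 (Fin n)) ℝ) = C 2 := (map_ofNat C 2).symm
    rw [h2, totalDegree_C, totalDegree_X]
  have h3 : (1 : MvPolynomial (Sym2 (Fin n)) ℝ).totalDegree = 0 := totalDegree_one
  rw [h3]
  exact max_le h1 (Nat.zero_le _)

lemma eval_aeval {σ τ : Type} (v : τ → ℝ) (g : σ → MvPolynomial τ ℝ) (f : MvPolynomial σ ℝ) :
    eval v (aeval g f) = eval (fun i => eval v (g i)) f := by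
  induction f using MvPolynomial.induction_on with
  | C a => simp
  | add p q hp hq => rw [map_add, map_add, map_add, hp, hq]
  | mul_X p i hp => rw [map_mul, map_mul, map_mul, hp, aeval_X, eval_X]

lemma eval_toInd {n : ℕ} (f : MvPolynomial (Pair n) ℝ) (G : SimpleGraph (Fin n)) :
    eval (W988.LD.ind G) (toInd f) = val f (gEquiv n G) := by
  classical
  unfold toInd val
  rw [eval_aeval]
  congr 1
  congr 1
  funext e
  rw [map_sub, map_mul, eval_X, map_one, map_ofNat]
  unfold W988.LD.ind sign gEquiv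
  simp only [Equiv.coe_fn_mk]
  by_cases h : e.1 ∈ G.edgeSet
  · rw [if_pos h, if_pos (by simpa using h)]
    norm_num
  · rw [if_neg h, if_neg (by simpa using h)]
    norm_num

/-- averages over the graphs -/
lemma avg_eq {n : ℕ} [Fintype (SimpleGraph (Fin n))] (F : (Pair n → Bool) → ℝ) :
    W988.LD.avg (fun G : SimpleGraph (Fin n) => F (gEquiv n G)) = mean F := by
  unfold W988.LD.avg mean
  rw [Fintype.card_congr (gEquiv n)]
  congr 1
  exact Fintype.sum_equiv (gEquiv n) _ _ fun _ => rfl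

/-- **The lower bound, quantitative form.** -/
theorem quant : ∃ n₀ : ℕ, ∀ n : ℕ, n₀ ≤ n → ∀ q : ℕ,
    Real.sqrt n * Real.exp (14 * Real.sqrt (Real.log n)) ≤ q →
    ∀ f : MvPolynomial (Pair n) ℝ, 1024 * (f.totalDegree : ℝ) ≤ Real.log (q / Real.sqrt n) ^ 2 →
      (∀ x : Pair n → Bool, (graph x).Colorable q → 1 ≤ val f x) → mean (val f) = 0 →
      q / Real.sqrt n ≤ mean (fun x => val f x ^ 2) := by
  classical
  obtain ⟨n₀, hn₀⟩ := W988.LD.sharp
  refine ⟨max n₀ 1, fun n hn q hq f hf h1 h0 => ?_⟩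
  obtain ⟨μ, hμ0, hμ1, hμc, hμ⟩ := hn₀ n (le_trans (le_max_left _ _) hn) q f.totalDegree hq hf
  have hnpos : (0 : ℝ) < n := by
    have : 1 ≤ n := le_trans (le_max_right _ _) hn
    exact_mod_cast this
  have hsn : 0 < Real.sqrt n := Real.sqrt_pos.2 hnpos
  have hqpos : (0 : ℝ) < q := lt_of_lt_of_le (by positivity) hq
  have h2 := hμ (toInd f) (toInd_degree f)
  simp only [eval_toInd] at h2
  rw [avg_eq (val f), avg_eq (fun x => val f x ^ 2), h0] at h2
  have h3 : 1 ≤ ∑ G : SimpleGraph (Fin n), μ G * val f (gEquiv n G) := by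
    rw [← hμ1]
    refine Finset.sum_le_sum fun G _ => ?_
    by_cases hG : μ G = 0
    · rw [hG, zero_mul]
    · have h4 : (graph (gEquiv n G)).Colorable q := by
        have h5 : graph (gEquiv n G) = G := (gEquiv n).symm_apply_apply G
        rw [h5]
        exact hμc G hG
      have h6 := h1 _ h4
      calc μ G = μ G * 1 := (mul_one _).symm
        _ ≤ μ G * val f (gEquiv n G) := mul_le_mul_of_nonneg_left h6 (hμ0 G)
  have h7 : 1 ≤ Real.sqrt n / q * mean (fun x => val f x ^ 2) := by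
    have h8 : (1 : ℝ) ≤ (∑ G : SimpleGraph (Fin n), μ G * val f (gEquiv n G) - 0) ^ 2 := by
      nlinarith
    have h9 := h8.trans h2
    simpa using h9
  rw [div_le_iff₀ hsn]
  have h10 : (q : ℝ) ≤ Real.sqrt n * mean (fun x => val f x ^ 2) := by
    have h11 : Real.sqrt n / q * mean (fun x => val f x ^ 2) =
        (Real.sqrt n * mean (fun x => val f x ^ 2)) / q := by ring
    rw [h11, le_div_iff₀ hqpos, one_mul] at h7
    exact h7
  linarith

/-- the degree `⌊(ε log n)² / 1024⌋` -/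
noncomputable def DD (ε : ℝ) (n : ℕ) : ℕ := ⌊(ε * Real.log n) ^ 2 / 1024⌋₊

lemma tendsto_log : Tendsto (fun n : ℕ => Real.log n) atTop atTop :=
  Real.tendsto_log_atTop.comp tendsto_natCast_atTop_atTop

lemma DD_tendsto {ε : ℝ} (hε : 0 < ε) :
    Tendsto (fun n : ℕ => (DD ε n : ℝ) / Real.log n) atTop atTop := by
  have h1 : Tendsto (fun n : ℕ => ε ^ 2 / 1024 * Real.log n - 1) atTop atTop :=
    tendsto_atTop_add_const_right _ _ (tendsto_log.const_mul_atTop (by positivity))
  refine tendsto_atTop_mono' _ ?_ h1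
  filter_upwards [tendsto_log.eventually_ge_atTop 1] with n hn
  have hL : 0 < Real.log n := by linarith
  rw [le_div_iff₀ hL]
  have h2 : (ε * Real.log n) ^ 2 / 1024 < DD ε n + 1 := Nat.lt_floor_add_one _
  nlinarith

lemma eventually_bounds {ε : ℝ} (hε : 0 < ε) {q : ℕ → ℕ}
    (hq : ∀ᶠ n : ℕ in atTop, (n : ℝ) ^ (1 / 2 + ε) ≤ q n) :
    ∀ᶠ n : ℕ in atTop, Real.sqrt n * Real.exp (14 * Real.sqrt (Real.log n)) ≤ q n ∧
      (n : ℝ) ^ ε ≤ q n / Real.sqrt n ∧
      1024 * (DD ε n : ℝ) ≤ Real.log (q n / Real.sqrt n) ^ 2 := by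
  filter_upwards [hq, tendsto_log.eventually_ge_atTop (max 1 ((14 / ε) ^ 2)),
    eventually_ge_atTop 1] with n h1 h2 h3
  have hL1 : 1 ≤ Real.log n := (le_max_left _ _).trans h2
  have hL2 : (14 / ε) ^ 2 ≤ Real.log n := (le_max_right _ _).trans h2
  have hn : (0 : ℝ) < n := by exact_mod_cast h3
  have hsn : 0 < Real.sqrt n := Real.sqrt_pos.2 hn
  have hpow : (n : ℝ) ^ (1 / 2 + ε) = Real.sqrt n * (n : ℝ) ^ ε := by
    rw [Real.rpow_add hn, Real.sqrt_eq_rpow]
  have hne : (n : ℝ) ^ ε = Real.exp (ε * Real.log n) := by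
    rw [Real.rpow_def_of_pos hn, mul_comm]
  have hs : 14 / ε ≤ Real.sqrt (Real.log n) := Real.le_sqrt_of_sq_le hL2
  have hss : Real.sqrt (Real.log n) * Real.sqrt (Real.log n) = Real.log n :=
    Real.mul_self_sqrt (by linarith)
  have h14 : 14 * Real.sqrt (Real.log n) ≤ ε * Real.log n := by
    rw [div_le_iff₀ hε] at hs
    have := mul_le_mul_of_nonneg_right hs (Real.sqrt_nonneg (Real.log n))
    nlinarith
  have hge : (n : ℝ) ^ ε ≤ q n / Real.sqrt n := by
    rw [le_div_iff₀ hsn, mul_comm, ← hpow]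
    exact h1
  refine ⟨?_, hge, ?_⟩
  · refine le_trans ?_ h1
    rw [hpow, hne]
    exact mul_le_mul_of_nonneg_left (Real.exp_le_exp.2 h14) hsn.le
  · have h4 : ε * Real.log n ≤ Real.log (q n / Real.sqrt n) := by
      have h5 : (0 : ℝ) < (n : ℝ) ^ ε := Real.rpow_pos_of_pos hn _
      have h6 := Real.log_le_log h5 hge
      rwa [Real.log_rpow hn] at h6
    have h7 : (DD ε n : ℝ) ≤ (ε * Real.log n) ^ 2 / 1024 := Nat.floor_le (by positivity)
    have h8 : 0 ≤ ε * Real.log n := by positivity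
    nlinarith

/-- **No polynomial of degree `(ε log n)² / 1024` weakly separates `G(n, 1/2)` from the `q`-colourable graphs,
`q ≥ n ^ (1/2 + ε)`.**

(1) There is `n₀` such that for all `n ≥ n₀`, all `q ≥ √n exp (14 √(log n))` and all polynomials `f` with
`1024 deg f ≤ log² (q / √n)`: if `f ≥ 1` on all `q`-colourable graphs and `f` has mean `0` for `G(n, 1/2)`, then
the second moment of `f` for `G(n, 1/2)` is at least `q / √n`.

(2) For every `ε > 0` there is a `D = ω(log n)` such that for every `q` with `q n ≥ n ^ (1/2 + ε)` for all large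
`n` no sequence of polynomials of degree at most `D n` weakly separates `G(n, 1/2)` and the `q n`-colourable
graphs. (`D n = ⌊(ε log n)² / 1024⌋`.) This is the answer (yes) to Q1. -/
theorem result :
    (∃ n₀ : ℕ, ∀ n : ℕ, n₀ ≤ n → ∀ q : ℕ,
      Real.sqrt n * Real.exp (14 * Real.sqrt (Real.log n)) ≤ q →
      ∀ f : MvPolynomial (Pair n) ℝ, 1024 * (f.totalDegree : ℝ) ≤ Real.log (q / Real.sqrt n) ^ 2 →
        (∀ x : Pair n → Bool, (graph x).Colorable q → 1 ≤ val f x) → mean (val f) = 0 →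
        q / Real.sqrt n ≤ mean (fun x => val f x ^ 2)) ∧
    ∀ ε : ℝ, 0 < ε →
      Tendsto (fun n : ℕ => (⌊(ε * Real.log n) ^ 2 / 1024⌋₊ : ℝ) / Real.log n) atTop atTop ∧
      ∀ q : ℕ → ℕ, (∀ᶠ n : ℕ in atTop, (n : ℝ) ^ (1 / 2 + ε) ≤ q n) →
        ¬ ∃ f : ∀ n : ℕ, MvPolynomial (Pair n) ℝ,
          (∀ᶠ n : ℕ in atTop, (f n).totalDegree ≤ ⌊(ε * Real.log n) ^ 2 / 1024⌋₊) ∧
          WeaklySeparates q f := by
  refine ⟨quant, fun ε hε => ⟨DD_tendsto hε, fun q hq => ?_⟩⟩
  rintro ⟨f, hdeg, h1, h0, C, hC⟩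
  obtain ⟨n₀, hn₀⟩ := quant
  have h2 : ∀ᶠ n : ℕ in atTop, C < (n : ℝ) ^ ε :=
    ((tendsto_rpow_atTop hε).comp tendsto_natCast_atTop_atTop).eventually_gt_atTop C
  obtain ⟨n, hn1, hn2, hn3, hn4, hn5, hn6, hn7⟩ := (((eventually_bounds hε hq).and (hdeg.and
    (h1.and (h0.and (hC.and (h2.and (eventually_ge_atTop n₀))))))).exists)
  have hdeg' : ((f n).totalDegree : ℝ) ≤ DD ε n := by exact_mod_cast hn2
  have h3 := hn₀ n hn7 (q n) hn1.1 (f n) (by
    refine le_trans ?_ hn1.2.2
    linarith) hn3 hn4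
  have h4 := hn1.2.1
  linarith

end Pool.Agent.Results.MP_537ba7_lc.NoLowDegreeRefutation
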